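import Pool.Agent.Helper84.PL.Goals

/-!
# Project PL (MP_d6b153_co): packet XL (crossing lemma)
-/

set_option autoImplicit false

namespace Pool.Agent.Helper5.PL

open Pool.Agent.Helper84.PL

theorem lam_mono {V : Type} [PartialOrder V] (R : Rz V) {a b : V} (h : a ≤ b) :
    R.lam a ≤ R.lam b ∧ R.rho a ≤ R.rho b := by
  rcases eq_or_lt_of_le h with rfl | h
  · exact ⟨le_rfl, le_rfl⟩
  · have := (R.lt_iff a b).1 h
    exact ⟨this.1.le, this.2.le⟩

theorem xl : G_XL := by
  intro V _ R v x u w hvx h1 h2 h3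
  obtain ⟨a1, a2⟩ := h1
  obtain ⟨b1, b2⟩ := lam_mono R h2
  obtain ⟨c1, c2⟩ := h3
  obtain ⟨d1, d2⟩ := (R.lt_iff v x).1 hvx.1
  have hvw : v < w := (R.lt_iff v w).2 ⟨by omega, by omega⟩
  have hux : u < x := (R.lt_iff u x).2 ⟨by omega, by omega⟩
  have hvu : v < v ⊔ u := by
    refine lt_of_le_of_ne le_sup_left fun h => ?_
    have h4 : u ≤ v := by
      rw [h]
      exact le_sup_right
    have := (lam_mono R h4).1
    omega
  have hle : v ⊔ u ≤ x := sup_le hvx.1.le hux.le
  have heq : v ⊔ u = x := by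
    by_contra hne
    exact hvx.2 hvu (lt_of_le_of_ne hle hne)
  have hxw : x ≤ w := by
    rw [← heq]
    exact sup_le hvw.le h2
  have := (lam_mono R hxw).1
  omega

end Pool.Agent.Helper5.PL
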